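import Pool.Agent.Helper54.Wav.Defs

set_option autoImplicit false

open MeasureTheory Matrix Module
open scoped ComplexConjugate ContDiff InnerProductSpace

namespace Pool.Agent.Helper48.Wav

open Pool.Agent.Helper54.Wav

lemma exists_notMem_of_dimH {F κ : Type*} [NormedAddCommGroup F] [NormedSpace ℝ F]
    [FiniteDimensional ℝ F] [Countable κ] (B : κ → Set F) (N : ℕ) (hN : N < finrank ℝ F)
    (hB : ∀ k, dimH (B k) ≤ N) : ∃ T : F, ∀ k, T ∉ B k := by
  have h1 : dimH (⋃ k, B k) < finrank ℝ F := by
    rw [dimH_iUnion]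
    refine lt_of_le_of_lt (iSup_le hB) ?_
    exact_mod_cast hN
  obtain ⟨T, hT⟩ := (dense_compl_of_dimH_lt_finrank h1).nonempty
  refine ⟨T, fun k hk => hT (Set.mem_iUnion.2 ⟨k, hk⟩)⟩

section
variable {n : ℕ} {V ι : Type*} [NormedAddCommGroup V] [InnerProductSpace ℂ V]
    [FiniteDimensional ℂ V] [Fintype ι] [DecidableEq ι] (e : ι → (Fin n → ℝ) → V)
    (F1 F2 : Finset ι) (p : ℕ)

/-- first bad set -/
noncomputable def f1 (k : Fin p) (x : (({j : Fin p // j ≠ k} → V) × ({j : Fin p // j ≠ k} → ℂ)) ×
    (({m : ι // m ∈ F1} → ℂ) × (Fin n → ℝ))) : Fin p → V := fun i =>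
  if h : i = k then (∑ m : {m : ι // m ∈ F1}, x.2.1 m • e m x.2.2) - ∑ j, x.1.2 j • x.1.1 j
  else x.1.1 ⟨i, h⟩

/-- second bad set -/
noncomputable def f2 (k : ι) (x : ((Fin n → ℝ) × ({m : ι // m ∉ F2 ∧ m ≠ k} → ℂ)) ×
    (Fin p → {m : ι // m ≠ k} → ℂ)) : Fin p → V := fun i =>
  ∑ m : {m : ι // m ≠ k}, x.2 i m • (e m x.1.1 -
    (if h : (m : ι) ∉ F2 then x.1.2 ⟨m, h, m.2⟩ else 0) • e k x.1.1)

variable (he : ∀ m, ContDiff ℝ ∞ (e m))

omit [FiniteDimensional ℂ V] [Fintype ι] [DecidableEq ι] in
include he in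
lemma contDiff_f1 (k : Fin p) : ContDiff ℝ 1 (f1 e F1 p k) := by
  have he' : ∀ m, ContDiff ℝ 1 (e m) := fun m => (he m).of_le (by exact_mod_cast le_top)
  rw [contDiff_pi]
  intro i
  unfold f1
  by_cases h : i = k
  · simp only [h, dite_true]
    refine ContDiff.sub ?_ ?_
    · refine ContDiff.sum fun m _ => ?_
      refine ContDiff.smul (by fun_prop) ((he' m).comp (by fun_prop))
    · refine ContDiff.sum fun m _ => ?_
      refine ContDiff.smul (by fun_prop) (by fun_prop)
  · simp only [h, dite_false]
    fun_prop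

omit [FiniteDimensional ℂ V] in
include he in
lemma contDiff_f2 (k : ι) : ContDiff ℝ 1 (f2 e F2 p k) := by
  have he' : ∀ m, ContDiff ℝ 1 (e m) := fun m => (he m).of_le (by exact_mod_cast le_top)
  rw [contDiff_pi]
  intro i
  unfold f2
  refine ContDiff.sum fun m _ => ?_
  refine ContDiff.smul (by fun_prop) (ContDiff.sub ((he' m).comp (by fun_prop)) ?_)
  refine ContDiff.smul ?_ ((he' k).comp (by fun_prop))
  by_cases h : (m : ι) ∉ F2
  · simp only [h, not_false_eq_true, dite_true]
    fun_prop
  · simp only [h, dite_false]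
    exact contDiff_const

end

lemma mem_span_coeff {V ι : Type*} [AddCommGroup V] [Module ℂ V] [Fintype ι] (v : ι → V)
    (S : Set ι) (x : V) (hx : x ∈ Submodule.span ℂ (v '' S)) :
    ∃ a : ι → ℂ, (∀ m, m ∉ S → a m = 0) ∧ x = ∑ m, a m • v m := by
  classical
  induction hx using Submodule.span_induction with
  | mem x hx =>
    obtain ⟨k, hk, rfl⟩ := hx
    refine ⟨Pi.single k 1, fun m hm => ?_, ?_⟩
    · have : m ≠ k := fun h => hm (h ▸ hk)
      simp [this]
    · simp [Pi.single_apply, ite_smul]
  | zero => exact ⟨0, fun _ _ => rfl, by simp⟩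
  | add x y _ _ hx hy =>
    obtain ⟨a, ha, rfl⟩ := hx
    obtain ⟨b, hb, rfl⟩ := hy
    exact ⟨a + b, fun m hm => by simp [ha m hm, hb m hm], by simp [add_smul, Finset.sum_add_distrib]⟩
  | smul c x _ hx =>
    obtain ⟨a, ha, rfl⟩ := hx
    exact ⟨c • a, fun m hm => by simp [ha m hm], by simp [Finset.smul_sum, smul_smul]⟩

theorem generic_columns {n : ℕ} {V ι : Type*} [NormedAddCommGroup V] [InnerProductSpace ℂ V]
    [FiniteDimensional ℂ V] [Fintype ι] [DecidableEq ι] (e : ι → (Fin n → ℝ) → V)
    (he : ∀ m, ContDiff ℝ ∞ (e m)) (hon : ∀ ξ, Orthonormal ℂ (fun m => e m ξ))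
    (hM : finrank ℂ V = Fintype.card ι) (F1 F2 : Finset ι) (p : ℕ)
    (h1 : 2 * p + 2 * F1.card + n ≤ 2 * Fintype.card ι)
    (h2 : n + 2 * Fintype.card ι ≤ 2 * p + 2 * F2.card) :
    ∃ T : Fin p → V, ∀ ξ,
      (∀ c : Fin p → ℂ, (∑ i, c i • T i) ∈ Submodule.span ℂ ((fun m => e m ξ) '' F1) → c = 0) ∧
      (∀ u ∈ Submodule.span ℂ ((fun m => e m ξ) '' (F2ᶜ : Finset ι)), (∀ i, ⟪T i, u⟫_ℂ = 0) →
        u = 0) := by
  classical
  have hF2 : F2.card ≤ Fintype.card ι := Finset.card_le_univ _
  rcases Nat.eq_zero_or_pos p with rfl | hp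
  · refine ⟨0, fun ξ => ⟨fun c _ => Subsingleton.elim _ _, fun u hu _ => ?_⟩⟩
    have : F2 = Finset.univ := by
      rw [← Finset.card_eq_iff_eq_univ]; omega
    simpa [this] using hu
  · have : FiniteDimensional ℝ V := FiniteDimensional.complexToReal V
    have hVr : finrank ℝ V = 2 * Fintype.card ι := by rw [finrank_real_of_complex, hM]
    obtain ⟨T, hT⟩ := exists_notMem_of_dimH (F := Fin p → V)
      (κ := Fin p ⊕ {k : ι // k ∉ F2})
      (Sum.elim (fun k => Set.range (f1 e F1 p k)) (fun k => Set.range (f2 e F2 p (k : ι))))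
      (2 * p * Fintype.card ι - 1) (by
        rw [Module.finrank_pi_fintype, Finset.sum_const, hVr]
        simp only [Finset.card_univ, Fintype.card_fin, smul_eq_mul]
        have : 0 < 2 * p * Fintype.card ι := by
          have : 0 < Fintype.card ι := by omega
          positivity
        have h3 : p * (2 * Fintype.card ι) = 2 * p * Fintype.card ι := by ring
        omega) (by
        rintro (k | ⟨k, hk⟩)
        · refine (ContDiff.dimH_range_le (contDiff_f1 e F1 p he k)).trans ?_
          have hd : finrank ℝ ((({j : Fin p // j ≠ k} → V) × ({j : Fin p // j ≠ k} → ℂ)) ×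
              (({m : ι // m ∈ F1} → ℂ) × (Fin n → ℝ))) =
              ((p - 1) * (2 * Fintype.card ι) + (p - 1) * 2) + (F1.card * 2 + n) := by
            rw [Module.finrank_prod, Module.finrank_prod, Module.finrank_prod,
              Module.finrank_pi_fintype, Module.finrank_pi_fintype, Module.finrank_pi_fintype,
              Module.finrank_fin_fun]
            simp [hVr]
          rw [hd]
          have : ((p - 1) * (2 * Fintype.card ι) + (p - 1) * 2) + (F1.card * 2 + n) ≤
              2 * p * Fintype.card ι - 1 := by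
            obtain ⟨q, rfl⟩ : ∃ q, p = q + 1 := ⟨p - 1, by omega⟩
            have h3 : 2 * (q + 1) * Fintype.card ι = q * (2 * Fintype.card ι) +
              2 * Fintype.card ι := by ring
            simp only [Nat.add_sub_cancel]
            omega
          exact_mod_cast this
        · refine (ContDiff.dimH_range_le (contDiff_f2 e F2 p he k)).trans ?_
          have hc : Fintype.card {m : ι // m ∉ F2 ∧ m ≠ k} = Fintype.card ι - F2.card - 1 := by
            rw [Fintype.card_subtype]
            have : (Finset.univ.filter fun m => m ∉ F2 ∧ m ≠ k) = F2ᶜ.erase k := by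
              ext m; simp [and_comm]
            rw [this, Finset.card_erase_of_mem (by simpa using hk), Finset.card_compl]
          have hd : finrank ℝ (((Fin n → ℝ) × ({m : ι // m ∉ F2 ∧ m ≠ k} → ℂ)) ×
              (Fin p → {m : ι // m ≠ k} → ℂ)) =
              (n + (Fintype.card ι - F2.card - 1) * 2) + p * ((Fintype.card ι - 1) * 2) := by
            rw [Module.finrank_prod, Module.finrank_prod, Module.finrank_fin_fun,
              Module.finrank_pi_fintype ℝ (ι := {m : ι // m ∉ F2 ∧ m ≠ k}),
              Module.finrank_pi_fintype ℝ (ι := Fin p), Finset.sum_const, Finset.card_univ, hc,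
              Module.finrank_pi_fintype ℝ (ι := {m : ι // m ≠ k})]
            simp
          rw [hd]
          have : (n + (Fintype.card ι - F2.card - 1) * 2) + p * ((Fintype.card ι - 1) * 2) ≤
              2 * p * Fintype.card ι - 1 := by
            have hlt : F2.card < Fintype.card ι := by
              refine lt_of_le_of_ne hF2 fun h => hk ?_
              rw [Finset.card_eq_iff_eq_univ] at h
              rw [h]; exact Finset.mem_univ _
            obtain ⟨M, hMM⟩ : ∃ M, Fintype.card ι = M + 1 := ⟨Fintype.card ι - 1, by omega⟩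
            rw [hMM] at h1 h2 hlt ⊢
            have h3 : 2 * p * (M + 1) = p * (M * 2) + 2 * p := by ring
            simp only [Nat.add_sub_cancel]
            omega
          exact_mod_cast this)
    refine ⟨T, fun ξ => ⟨fun c hc => ?_, fun u hu hTu => ?_⟩⟩
    · by_contra hne
      obtain ⟨k, hk⟩ : ∃ k, c k ≠ 0 := by
        by_contra h; push Not at h; exact hne (funext h)
      apply hT (Sum.inl k)
      have hc' : (c k)⁻¹ • (∑ i, c i • T i) ∈ Submodule.span ℂ ((fun m => e m ξ) '' F1) :=
        Submodule.smul_mem _ _ hc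
      obtain ⟨a, ha, hae⟩ := mem_span_coeff (fun m => e m ξ) _ _ hc'
      refine ⟨((fun j => T j, fun j => (c k)⁻¹ * c j), (fun m => a m, ξ)), ?_⟩
      funext i
      unfold f1
      by_cases h : i = k
      · subst h
        simp only [dite_true]
        have e1 : ∑ m : {m : ι // m ∈ F1}, a m • e m ξ = ∑ m, a m • e m ξ := by
          rw [Finset.sum_coe_sort F1 (fun m => a m • e m ξ)]
          refine Finset.sum_subset (Finset.subset_univ _) fun m _ hm => ?_
          rw [ha m (by simpa using hm), zero_smul]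
        rw [e1, ← hae, Fintype.sum_eq_add_sum_subtype_ne _ i, smul_add, smul_smul,
          inv_mul_cancel₀ hk, one_smul, Finset.smul_sum]
        simp only [smul_smul, add_sub_cancel_right]
      · simp only [h, dite_false]
    · by_contra hne
      obtain ⟨a, ha, hae⟩ := mem_span_coeff (fun m => e m ξ) _ _ hu
      obtain ⟨k, hk⟩ : ∃ k, a k ≠ 0 := by
        by_contra h; push Not at h
        apply hne
        rw [hae]
        simp [h]
      have hkF : k ∉ F2 := by
        by_contra h
        exact hk (ha k (by simpa using h))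
      apply hT (Sum.inr ⟨k, hkF⟩)
      let b : OrthonormalBasis ι ℂ V := OrthonormalBasis.mk (hon ξ)
        (le_of_eq ((hon ξ).linearIndependent.span_eq_top_of_card_eq_finrank' hM.symm).symm)
      have hb : ∀ m, b m = e m ξ := fun m => by simp [b]
      refine ⟨((ξ, fun m => conj (a m) / conj (a k)), fun i m => ⟪e m ξ, T i⟫_ℂ), ?_⟩
      funext i
      unfold f2
      have hk' : conj (a k) ≠ 0 := by simpa using hk
      have e0 : ∀ m, (if h : m ∉ F2 then conj (a m) / conj (a k) else 0) =
          conj (a m) / conj (a k) := by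
        intro m
        by_cases h : m ∈ F2
        · rw [ha m (by simpa using h)]; simp
        · simp [h]
      simp only [e0]
      have e1 : ∑ m, conj (a m) * ⟪e m ξ, T i⟫_ℂ = 0 := by
        have := hTu i
        rw [hae, inner_sum] at this
        have h3 := congrArg (starRingEnd ℂ) this
        rw [map_sum, map_zero] at h3
        rw [← h3]
        refine Finset.sum_congr rfl fun m _ => ?_
        rw [inner_smul_right, map_mul, inner_conj_symm]
      rw [Fintype.sum_eq_add_sum_subtype_ne _ k] at e1
      have e2 : T i = ∑ m, ⟪e m ξ, T i⟫_ℂ • e m ξ := by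
        have := b.sum_repr' (T i)
        simp only [hb] at this
        exact this.symm
      rw [Fintype.sum_eq_add_sum_subtype_ne _ k] at e2
      have e3 : ⟪e k ξ, T i⟫_ℂ = - ∑ m : {m : ι // m ≠ k}, ⟪e m ξ, T i⟫_ℂ * (conj (a m) / conj (a k)) := by
        have h4 : conj (a k) * (⟪e k ξ, T i⟫_ℂ + ∑ m : {m : ι // m ≠ k}, ⟪e m ξ, T i⟫_ℂ * (conj (a m) / conj (a k))) = 0 := by
          rw [← e1, mul_add, Finset.mul_sum]
          congr 1
          refine Finset.sum_congr rfl fun m _ => ?_
          field_simp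
        rcases mul_eq_zero.1 h4 with h5 | h5
        · exact absurd h5 hk'
        · exact eq_neg_of_add_eq_zero_left h5
      conv_rhs => rw [e2, e3]
      rw [neg_smul, Finset.sum_smul]
      simp only [smul_sub, Finset.sum_sub_distrib, smul_smul]
      abel

end Pool.Agent.Helper48.Wav
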